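import Pool.Agent.Lib.MP_144d21_co.XU.Iface
import Pool.Agent.Lib.MP_144d21_co.PSI.Iface

/-!
# MP_144d21_co, project XU3 (Xu's conjecture, `k = 3`): final interface (helper52)

Every graph whose chromatic polynomial is `X ^ r0 (X - 1) ^ r1 (X - 2) ^ r2 (X - 3) ^ r3` is
chordal. The two halves are `PsimS` (PSI/Iface.lean: the sum over the proper 4-colourings) and
`BetaS` (the lower bound for Crapo's invariant at one proper 4-colouring); everything else is in
project XU. `D3`, `D2` = dimensions of the spaces of motions `M3`, `M2` of PSI/Base.lean.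
-/

set_option autoImplicit false

namespace Pool.Agent.Xu

open Finset Polynomial

/-- BETA (chair: helper55): `beta >= 2 ^ (n + 3 - D3) * (4/3) ^ (D2 - 3)` -/
def BetaS : Prop := ∀ (V : Type) [Fintype V] [DecidableEq V] (G : SimpleGraph V) (S : Finset V)
  (c : V → ℕ), TwoConn G S → c ∈ cols G S 4 →
  (27 : ℝ) / 8 * 2 ^ S.card * (4 / 3) ^ D2 G S c ≤ (bet G S : ℝ) * 2 ^ D3 G S c

/-- RKD3: the spatial motions are orthogonal to the rows of the tetrahedral placement -/
def Rkd3S : Prop := ∀ (V : Type) [Fintype V] [DecidableEq V] (G : SimpleGraph V) (S : Finset V)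
  (c : V → ℕ), c ∈ cols G S 4 → 3 * S.card ≤ rk (plc c) G S + D3 G S c

/-- XUCORE. Uses PSIM, BETA, RKD3, CORENUM, THMA, PERT. -/
def XucoreS : Prop := ∀ (V : Type) [Fintype V] [DecidableEq V] (G : SimpleGraph V)
  (S : Finset V) (a : ℕ), TwoConn G S → Good G S a → ChordalOn G S

/-- XU: Xu's conjecture for `k = 3` -/
def XuS : Prop := ∀ (V : Type) [Fintype V] [DecidableEq V] (G : SimpleGraph V) (a : ℕ),
  Good G univ a → ChordalOn G univ

end Pool.Agent.Xu
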